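import Pool.Agent.Gab7c47.Down

/-!
# Gabow's conjecture for two bases with few different elements (helper47)

If Gabow's conjecture holds in all ranks at most `N` then it holds for any two bases `B`, `B'` with
`|B \ B'| ≤ N` of a matroid of any rank.
-/

set_option autoImplicit false

namespace Pool.Agent.Gab7c47

universe u

open scoped Matroid

theorem block_zero {α : Type*} {r : ℕ} (u v : Fin (r + 1) → α) :
    block u v ⟨0, by omega⟩ = Set.range u := by
  ext x
  constructor
  · rintro ⟨j, hj, hx⟩
    rw [sub_lt] at hj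
    revert hj hx
    refine Fin.addCases (fun k => ?_) (fun k => ?_) j
    · intro hj hx
      rw [Fin.append_left] at hx
      exact ⟨k, hx.symm⟩
    · intro hj hx
      unfold W at hj
      rw [Fin.val_natAdd] at hj
      simp only at hj
      omega
  · rintro ⟨k, hk⟩
    refine ⟨Fin.castAdd (r + 1) k, ?_, by rw [Fin.append_left, hk]⟩
    have := k.2
    rw [sub_lt]
    unfold W
    rw [Fin.val_castAdd]
    simp only
    omega

theorem block_mid {α : Type*} {r : ℕ} (u v : Fin (r + 1) → α) :
    block u v ⟨r + 1, by omega⟩ = Set.range v := by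
  ext x
  constructor
  · rintro ⟨j, hj, hx⟩
    rw [sub_lt] at hj
    revert hj hx
    refine Fin.addCases (fun k => ?_) (fun k => ?_) j
    · intro hj hx
      have := k.2
      unfold W at hj
      rw [Fin.val_castAdd] at hj
      simp only at hj
      omega
    · intro hj hx
      rw [Fin.append_right] at hx
      exact ⟨k, hx.symm⟩
  · rintro ⟨k, hk⟩
    refine ⟨Fin.natAdd (r + 1) k, ?_, by rw [Fin.append_right, hk]⟩
    have := k.2
    rw [sub_lt]
    unfold W
    rw [Fin.val_natAdd]
    simp only
    omega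

/-- Inserting a common element as the first term of both lists. -/
theorem block_ins {α : Type*} {r : ℕ} (u v : Fin (r + 1) → α) (u' v' : Fin r → α) (x : α)
    (hu0 : u 0 = x) (hv0 : v 0 = x) (hu : ∀ i, u' i = u i.succ) (hv : ∀ i, v' i = v i.succ)
    (t : Fin (r + r)) :
    block u v ⟨io 0 r t.val, io_lt t.2⟩ = insert x (block u' v' t) := by
  have hu1 : ∀ i, id (u' i) = u ((0 : Fin (r + 1)).succAbove i) := by
    intro i
    rw [Fin.succAbove_zero]
    exact hu i
  have hv1 : ∀ i, id (v' i) = v ((0 : Fin (r + 1)).succAbove i) := by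
    intro i
    rw [Fin.succAbove_zero]
    exact hv i
  have ht := t.2
  have A : ∀ s : Fin (r + r), Fin.append u v ⟨io 0 r s.val, io_lt s.2⟩ = Fin.append u' v' s :=
    fun s => append_io u v u' v' id 0 hu1 hv1 s
  have h0 : Fin.append u v ⟨0, by omega⟩ = x := by
    have : (⟨0, by omega⟩ : Fin ((r + 1) + (r + 1))) = Fin.castAdd (r + 1) (0 : Fin (r + 1)) :=
      Fin.ext rfl
    rw [this, Fin.append_left, hu0]
  have h1 : Fin.append u v ⟨r + 1, by omega⟩ = x := by
    have : (⟨r + 1, by omega⟩ : Fin ((r + 1) + (r + 1))) = Fin.natAdd (r + 1) (0 : Fin (r + 1)) :=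
      Fin.ext rfl
    rw [this, Fin.append_right, hv0]
  ext y
  constructor
  · rintro ⟨j, hj, rfl⟩
    rw [sub_lt] at hj
    by_cases e0 : j.val = 0
    · have : j = ⟨0, by omega⟩ := Fin.ext e0
      rw [this, h0]
      exact Set.mem_insert _ _
    · by_cases e1 : j.val = r + 1
      · have : j = ⟨r + 1, by omega⟩ := Fin.ext e1
        rw [this, h1]
        exact Set.mem_insert _ _
      · obtain ⟨s, hs, hsj⟩ := io_surj (p := 0) (Nat.zero_le r) j.2 e0 (by omega)
        have e : j = ⟨io 0 r (⟨s, hs⟩ : Fin (r + r)).val, io_lt hs⟩ := Fin.ext hsj.symm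
        right
        refine ⟨⟨s, hs⟩, ?_, ?_⟩
        · rw [sub_lt]
          rw [e] at hj
          exact (W_io (Nat.zero_le r) hs ht).1 hj
        · rw [e, A]
  · rintro (rfl | ⟨s, hs, rfl⟩)
    · have hlt := io_lt (p := 0) ht
      have hW : W (r + 1) 0 (io 0 r t.val) ∨ W (r + 1) (r + 1) (io 0 r t.val) := by
        unfold W
        omega
      rcases hW with hW | hW
      · exact ⟨⟨0, by omega⟩, (sub_lt _ _).2 hW, h0.symm⟩
      · exact ⟨⟨r + 1, by omega⟩, (sub_lt _ _).2 hW, h1.symm⟩
    · rw [sub_lt] at hs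
      exact ⟨⟨io 0 r s.val, io_lt s.2⟩, (sub_lt _ _).2 ((W_io (Nat.zero_le r) s.2 ht).2 hs),
        (A s).symm⟩

/-- The longer ordering. -/
theorem long {r : ℕ} (p : Fin (r + 1)) (s : Equiv.Perm (Fin r)) :
    ∃ τ : Equiv.Perm (Fin (r + 1)), τ 0 = p ∧ ∀ i : Fin r, τ i.succ = p.succAbove (s i) := by
  let f : Fin (r + 1) → Fin (r + 1) := Fin.cons p (fun i => p.succAbove (s i))
  have hf : Function.Injective f := by
    rw [Fin.cons_injective_iff]
    refine ⟨?_, fun i j hij => s.injective (Fin.succAbove_right_injective hij)⟩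
    rintro ⟨i, hi⟩
    exact Fin.succAbove_ne _ _ hi
  exact ⟨Equiv.ofBijective f (Finite.injective_iff_bijective.1 hf), rfl, fun i => rfl⟩

/-- **Two bases with few different elements.** -/
theorem common {N : ℕ} (H : ∀ r, r ≤ N → Gab.{u} r) (r : ℕ) :
    ∀ (α : Type u) (M : Matroid α) (b b' : Fin r → α), Function.Injective b →
    Function.Injective b' → M.IsBase (Set.range b) → M.IsBase (Set.range b') →
    (Set.range b \ Set.range b').ncard ≤ N →
    ∃ σ σ' : Equiv.Perm (Fin r), ∀ i : Fin (r + r), M.IsBase (block (b ∘ σ) (b' ∘ σ') i) := by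
  induction r with
  | zero =>
    intro α M b b' hb hb' hB hB' _
    exact H 0 (Nat.zero_le _) α M b b' hb hb' hB hB'
  | succ r ih =>
    intro α M b b' hb hb' hB hB' hN
    by_cases hx : ∃ x, x ∈ Set.range b ∧ x ∈ Set.range b'
    · obtain ⟨x, ⟨p, hp⟩, ⟨q, hq⟩⟩ := hx
      have hI : M.Indep {x} := hB.indep.subset (by
        rintro _ rfl
        exact ⟨p, hp⟩)
      have rng : ∀ (a : Fin (r + 1) → α) (k : Fin (r + 1)), Function.Injective a → a k = x →
          Set.range (a ∘ k.succAbove) = Set.range a \ {x} := by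
        intro a k ha hk
        ext y
        constructor
        · rintro ⟨i, rfl⟩
          refine ⟨⟨_, rfl⟩, fun h => ?_⟩
          exact Fin.succAbove_ne k i (ha (h.trans hk.symm))
        · rintro ⟨⟨i, rfl⟩, hi⟩
          have hik : i ≠ k := by
            rintro rfl
            exact hi hk
          obtain ⟨j, hj⟩ := Fin.exists_succAbove_eq hik
          exact ⟨j, by simp [hj]⟩
      have rb := rng b p hb hp
      have rb' := rng b' q hb' hq
      have base : ∀ X : Set α, M.IsBase X → x ∈ X → (M ／ {x}).IsBase (X \ {x}) := by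
        intro X hX hxX
        rw [hI.contract_isBase_iff]
        refine ⟨?_, Set.disjoint_sdiff_left⟩
        rwa [Set.sdiff_union_of_subset (by simpa using hxX)]
      have B1 : (M ／ {x}).IsBase (Set.range (b ∘ p.succAbove)) := by
        rw [rb]
        exact base _ hB ⟨p, hp⟩
      have B2 : (M ／ {x}).IsBase (Set.range (b' ∘ q.succAbove)) := by
        rw [rb']
        exact base _ hB' ⟨q, hq⟩
      have hN' : (Set.range (b ∘ p.succAbove) \ Set.range (b' ∘ q.succAbove)).ncard ≤ N := by
        have : Set.range (b ∘ p.succAbove) \ Set.range (b' ∘ q.succAbove) =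
            Set.range b \ Set.range b' := by
          rw [rb, rb']
          ext y
          constructor
          · rintro ⟨⟨h1, h2⟩, h3⟩
            exact ⟨h1, fun h => h3 ⟨h, h2⟩⟩
          · rintro ⟨h1, h2⟩
            refine ⟨⟨h1, ?_⟩, fun h => h2 h.1⟩
            rintro rfl
            exact h2 ⟨q, hq⟩
        rw [this]
        exact hN
      obtain ⟨s, s', hs⟩ := ih α (M ／ {x}) (b ∘ p.succAbove) (b' ∘ q.succAbove)
        (hb.comp Fin.succAbove_right_injective) (hb'.comp Fin.succAbove_right_injective) B1 B2 hN'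
      obtain ⟨σ, hσ0, hσ⟩ := long p s
      obtain ⟨σ', hσ0', hσ'⟩ := long q s'
      refine ⟨σ, σ', fun i => ?_⟩
      by_cases e0 : i.val = 0
      · have : i = ⟨0, by omega⟩ := Fin.ext e0
        rw [this, block_zero, Set.range_comp, σ.range_eq_univ, Set.image_univ]
        exact hB
      · by_cases e1 : i.val = r + 1
        · have : i = ⟨r + 1, by omega⟩ := Fin.ext e1
          rw [this, block_mid, Set.range_comp, σ'.range_eq_univ, Set.image_univ]
          exact hB'
        · obtain ⟨t, ht, hti⟩ := io_surj (p := 0) (Nat.zero_le r) i.2 e0 (by omega)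
          have e : i = ⟨io 0 r (⟨t, ht⟩ : Fin (r + r)).val, io_lt ht⟩ := Fin.ext hti.symm
          rw [e, block_ins (b ∘ σ) (b' ∘ σ') ((b ∘ p.succAbove) ∘ s) ((b' ∘ q.succAbove) ∘ s') x
            (by simp [hσ0, hp]) (by simp [hσ0', hq]) (fun i => by simp [hσ]) (fun i => by simp [hσ'])]
          have h3 := (hI.contract_isBase_iff.1 (hs ⟨t, ht⟩)).1
          rwa [Set.union_singleton] at h3
    · have hd : Set.range b \ Set.range b' = Set.range b := by
        ext y
        exact ⟨fun h => h.1, fun h => ⟨h, fun h' => hx ⟨y, h, h'⟩⟩⟩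
      have hc : (Set.range b).ncard = r + 1 := by
        rw [← Set.image_univ, Set.ncard_image_of_injective _ hb, Set.ncard_univ, Nat.card_fin]
      rw [hd, hc] at hN
      exact H (r + 1) hN α M b b' hb hb' hB hB'

/-- From one rank `N` to all pairs of bases with at most `N` different elements, for a function
which gives the orderings in all ranks at most `N`. -/
theorem few {N : ℕ}
    (H : ∀ {β : Type u} (M : Matroid β) {r : ℕ}, r ≤ N → ∀ b b' : Fin r → β,
      Function.Injective b → Function.Injective b' → M.IsBase (Set.range b) →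
      M.IsBase (Set.range b') →
      ∃ σ σ' : Equiv.Perm (Fin r), ∀ i : Fin (r + r), M.IsBase (block (b ∘ σ) (b' ∘ σ') i))
    {α : Type u} (M : Matroid α) {r : ℕ} (b b' : Fin r → α)
    (hb : Function.Injective b) (hb' : Function.Injective b')
    (hB : M.IsBase (Set.range b)) (hB' : M.IsBase (Set.range b'))
    (hd : (Set.range b \ Set.range b').ncard ≤ N) :
    ∃ σ σ' : Equiv.Perm (Fin r), ∀ i : Fin (r + r), M.IsBase (block (b ∘ σ) (b' ∘ σ') i) :=
  common (fun _ hr _ M b b' h1 h2 h3 h4 => H M hr b b' h1 h2 h3 h4) r α M b b' hb hb' hB hB' hd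

end Pool.Agent.Gab7c47
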