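import Mathlib

/-!
# Gabow's conjecture in rank `r + 1` implies it in rank `r` (helper47)
-/

set_option autoImplicit false

namespace Pool.Agent.Gab7c47

universe u

/-- The block of `r` cyclically consecutive terms, starting with the term number `i`. -/
def block {α : Type*} {r : ℕ} (u v : Fin r → α) (i : Fin (r + r)) : Set α :=
  {x | ∃ j : Fin (r + r), (j - i).val < r ∧ x = Fin.append u v j}

/-- Gabow's conjecture in rank `r`. -/
def Gab (r : ℕ) : Prop :=
  ∀ (α : Type u) (M : Matroid α) (b b' : Fin r → α), Function.Injective b →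
    Function.Injective b' → M.IsBase (Set.range b) → M.IsBase (Set.range b') →
    ∃ σ σ' : Equiv.Perm (Fin r), ∀ i : Fin (r + r), M.IsBase (block (b ∘ σ) (b' ∘ σ') i)

/-- The window. -/
def W (r j i : ℕ) : Prop := (i ≤ j ∧ j < i + r) ∨ (j < i ∧ j + r < i)

theorem sub_lt {r : ℕ} (i j : Fin (r + r)) : (j - i).val < r ↔ W r j.val i.val := by
  have hi := i.2
  have hj := j.2
  unfold W
  rw [Fin.sub_def]
  simp only
  rcases le_or_gt i.val j.val with h | h
  · have e : (r + r - i.val + j.val) % (r + r) = j.val - i.val := by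
      rw [show r + r - i.val + j.val = (j.val - i.val) + (r + r) by omega, Nat.add_mod_right,
        Nat.mod_eq_of_lt (by omega)]
    rw [e]
    omega
  · have e : (r + r - i.val + j.val) % (r + r) = r + r - i.val + j.val :=
      Nat.mod_eq_of_lt (by omega)
    rw [e]
    omega

/-- The position in the longer sequence. -/
def io (p r t : ℕ) : ℕ := if t < p then t else if t < p + r then t + 1 else t + 2

theorem io_lt {p r t : ℕ} (ht : t < r + r) : io p r t < (r + 1) + (r + 1) := by
  unfold io
  split_ifs <;> omega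

theorem W_io {p r t i : ℕ} (hp : p ≤ r) (ht : t < r + r) (hi : i < r + r) :
    W (r + 1) (io p r t) (io p r i) ↔ W r t i := by
  unfold W io
  split_ifs <;> omega

theorem io_surj {p r t : ℕ} (hp : p ≤ r) (ht : t < (r + 1) + (r + 1)) (h1 : t ≠ p)
    (h2 : t ≠ p + r + 1) : ∃ s, s < r + r ∧ io p r s = t := by
  unfold io
  rcases lt_or_ge t p with h | h
  · exact ⟨t, by omega, by rw [if_pos h]⟩
  · rcases lt_or_ge t (p + r + 1) with h3 | h3
    · exact ⟨t - 1, by omega, by rw [if_neg (by omega), if_pos (by omega)]; omega⟩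
    · exact ⟨t - 2, by omega, by rw [if_neg (by omega), if_neg (by omega)]; omega⟩

/-- The terms. -/
theorem append_io {α β : Type*} {r : ℕ} (u v : Fin (r + 1) → β) (u' v' : Fin r → α) (f : α → β)
    (p : Fin (r + 1)) (hu : ∀ i, f (u' i) = u (p.succAbove i))
    (hv : ∀ i, f (v' i) = v (p.succAbove i)) (t : Fin (r + r)) :
    Fin.append u v ⟨io p.val r t.val, io_lt t.2⟩ = f (Fin.append u' v' t) := by
  have hp := p.2
  refine Fin.addCases (fun i => ?_) (fun i => ?_) t
  · have hi := i.2
    rw [Fin.append_left, hu]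
    have : (⟨io p.val r (Fin.castAdd r i).val, io_lt (Fin.castAdd r i).2⟩ : Fin ((r + 1) + (r + 1))) =
        Fin.castAdd (r + 1) (p.succAbove i) := by
      apply Fin.ext
      simp only [Fin.val_castAdd]
      unfold io
      by_cases h : i.val < p.val
      · rw [if_pos h, Fin.succAbove_of_castSucc_lt _ _ (by simpa [Fin.lt_def] using h)]
        rfl
      · rw [if_neg h, if_pos (by omega), Fin.succAbove_of_le_castSucc _ _ (by
          simpa [Fin.le_def] using h)]
        rfl
    rw [this, Fin.append_left]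
  · have hi := i.2
    rw [Fin.append_right, hv]
    have : (⟨io p.val r (Fin.natAdd r i).val, io_lt (Fin.natAdd r i).2⟩ : Fin ((r + 1) + (r + 1))) =
        Fin.natAdd (r + 1) (p.succAbove i) := by
      apply Fin.ext
      simp only [Fin.val_natAdd]
      unfold io
      by_cases h : i.val < p.val
      · rw [if_neg (by omega), if_pos (by omega),
          Fin.succAbove_of_castSucc_lt _ _ (by simpa [Fin.lt_def] using h)]
        simp
        omega
      · rw [if_neg (by omega), if_neg (by omega), Fin.succAbove_of_le_castSucc _ _ (by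
          simpa [Fin.le_def] using h)]
        simp
        omega
    rw [this, Fin.append_right]

/-- **Down.** -/
theorem down {r : ℕ} (h : Gab.{u} (r + 1)) : Gab.{u} r := by
  intro α M b b' hb hb' hB hB'
  let N : Matroid (α ⊕ Unit) := M.sum (Matroid.freeOn Set.univ)
  have hN : ∀ X : Set (α ⊕ Unit), N.IsBase X ↔ M.IsBase (Sum.inl ⁻¹' X) ∧ Sum.inr () ∈ X := by
    intro X
    rw [Matroid.sum_isBase_iff, Matroid.freeOn_isBase_iff]
    refine and_congr_right fun _ => ?_
    constructor
    · intro h1
      have : () ∈ (Sum.inr ⁻¹' X : Set Unit) := h1 ▸ Set.mem_univ _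
      exact this
    · intro h1
      ext ⟨⟩
      exact ⟨fun _ => trivial, fun _ => h1⟩
  -- the longer lists
  have key : ∀ (a : Fin r → α), Function.Injective a → M.IsBase (Set.range a) →
      Function.Injective (Fin.cons (Sum.inr ()) (fun i => Sum.inl (a i)) :
        Fin (r + 1) → α ⊕ Unit) ∧
      N.IsBase (Set.range (Fin.cons (Sum.inr ()) (fun i => Sum.inl (a i)) :
        Fin (r + 1) → α ⊕ Unit)) := by
    intro a ha hA
    refine ⟨?_, ?_⟩
    · rw [Fin.cons_injective_iff]
      refine ⟨?_, fun i j hij => ha (Sum.inl_injective hij)⟩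
      rintro ⟨i, hi⟩
      simp at hi
    · rw [hN, Fin.range_cons]
      refine ⟨?_, Set.mem_insert _ _⟩
      have : (Sum.inl ⁻¹' (insert (Sum.inr ()) (Set.range fun i => (Sum.inl (a i) : α ⊕ Unit))) :
          Set α) = Set.range a := by
        ext x
        simp
      rw [this]
      exact hA
  obtain ⟨i1, j1⟩ := key b hb hB
  obtain ⟨i2, j2⟩ := key b' hb' hB'
  obtain ⟨σ, σ', hσ⟩ := h _ N _ _ i1 i2 j1 j2
  set c : Fin (r + 1) → α ⊕ Unit := Fin.cons (Sum.inr ()) (fun i => Sum.inl (b i)) with hc
  set c' : Fin (r + 1) → α ⊕ Unit := Fin.cons (Sum.inr ()) (fun i => Sum.inl (b' i)) with hc'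
  let p := σ.symm 0
  let q := σ'.symm 0
  have hcu : ∀ i, (c ∘ σ) i = Sum.inr () → i = p := by
    intro i hi
    have h2 : c (σ i) = c 0 := hi.trans (show Sum.inr () = c 0 by simp [hc])
    have h1 : σ i = 0 := i1 h2
    exact (σ.symm_apply_eq.2 h1.symm).symm
  have hcv : ∀ i, (c' ∘ σ') i = Sum.inr () → i = q := by
    intro i hi
    have h2 : c' (σ' i) = c' 0 := hi.trans (show Sum.inr () = c' 0 by simp [hc'])
    have h1 : σ' i = 0 := i2 h2
    exact (σ'.symm_apply_eq.2 h1.symm).symm
  -- the positions agree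
  have hmem : ∀ i : Fin ((r + 1) + (r + 1)), W (r + 1) p.val i.val ∨ W (r + 1) (r + 1 + q.val) i.val := by
    intro i
    obtain ⟨_, j, hj, hj2⟩ := (hN _).1 (hσ i)
    rw [sub_lt] at hj
    revert hj hj2
    refine Fin.addCases (fun k => ?_) (fun k => ?_) j
    · intro hj hj2
      rw [Fin.append_left] at hj2
      left
      rw [← hcu k hj2.symm]
      exact hj
    · intro hj hj2
      rw [Fin.append_right] at hj2
      right
      rw [← hcv k hj2.symm]
      exact hj
  have hpq : p = q := by
    apply Fin.ext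
    have hp := p.2
    have hq := q.2
    rcases lt_trichotomy p.val q.val with h1 | h1 | h1
    · have := hmem ⟨p.val + 1, by omega⟩
      unfold W at this
      simp only at this
      omega
    · exact h1
    · have := hmem ⟨r + 2 + q.val, by omega⟩
      unfold W at this
      simp only at this
      omega
  -- the shorter orderings
  have short : ∀ (τ : Equiv.Perm (Fin (r + 1))) , τ (τ.symm 0) = 0 → ∃ s : Equiv.Perm (Fin r),
      ∀ i, (s i).succ = τ ((τ.symm 0).succAbove i) := by
    intro τ hτ
    have hne : ∀ i, τ ((τ.symm 0).succAbove i) ≠ 0 := by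
      intro i hi
      have := τ.injective (hi.trans hτ.symm)
      exact Fin.succAbove_ne _ _ this
    let s : Fin r → Fin r := fun i => (τ ((τ.symm 0).succAbove i)).pred (hne i)
    have hs : Function.Injective s := by
      intro i j hij
      have := Fin.pred_inj.1 hij
      exact Fin.succAbove_right_injective (τ.injective this)
    exact ⟨Equiv.ofBijective s (Finite.injective_iff_bijective.1 hs), fun i => Fin.succ_pred _ (hne i)⟩
  obtain ⟨s, hs⟩ := short σ (by simp)
  obtain ⟨s', hs'⟩ := short σ' (by simp)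
  refine ⟨s, s', fun i => ?_⟩
  have hp := p.2
  have hu : ∀ i, (Sum.inl ((b ∘ s) i) : α ⊕ Unit) = (c ∘ σ) (p.succAbove i) := by
    intro i
    change _ = c (σ (p.succAbove i))
    rw [← hs i, hc, Fin.cons_succ]
    rfl
  have hv : ∀ i, (Sum.inl ((b' ∘ s') i) : α ⊕ Unit) = (c' ∘ σ') (p.succAbove i) := by
    intro i
    rw [hpq]
    change _ = c' (σ' (q.succAbove i))
    rw [← hs' i, hc', Fin.cons_succ]
    rfl
  have h1 := ((hN _).1 (hσ ⟨io p.val r i.val, io_lt i.2⟩)).1
  have h2 : Sum.inl ⁻¹' block (c ∘ σ) (c' ∘ σ') ⟨io p.val r i.val, io_lt i.2⟩ =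
      block (b ∘ s) (b' ∘ s') i := by
    ext x
    constructor
    · rintro ⟨j, hj, hx⟩
      rw [sub_lt] at hj
      have hjp : j.val ≠ p.val := by
        intro hjp
        have : j = Fin.castAdd (r + 1) p := Fin.ext hjp
        rw [this, Fin.append_left] at hx
        have h3 : (c ∘ σ) p = Sum.inr () := by simp [p, hc]
        rw [h3] at hx
        cases hx
      have hjq : j.val ≠ p.val + r + 1 := by
        intro hjp
        have : j = Fin.natAdd (r + 1) q := Fin.ext (by
          rw [Fin.val_natAdd, ← hpq, hjp]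
          omega)
        rw [this, Fin.append_right] at hx
        have h3 : (c' ∘ σ') q = Sum.inr () := by simp [q, hc']
        rw [h3] at hx
        cases hx
      obtain ⟨t, ht, htj⟩ := io_surj (by omega) j.2 hjp hjq
      have e : j = ⟨io p.val r (⟨t, ht⟩ : Fin (r + r)).val, io_lt ht⟩ := Fin.ext htj.symm
      refine ⟨⟨t, ht⟩, ?_, ?_⟩
      · rw [sub_lt]
        rw [e] at hj
        exact (W_io (by omega) ht i.2).1 hj
      · rw [e, append_io (c ∘ σ) (c' ∘ σ') (b ∘ s) (b' ∘ s') Sum.inl p hu hv] at hx
        exact Sum.inl_injective hx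
    · rintro ⟨t, ht, hx⟩
      rw [sub_lt] at ht
      refine ⟨⟨io p.val r t.val, io_lt t.2⟩, ?_, ?_⟩
      · rw [sub_lt]
        exact (W_io (by omega) t.2 i.2).2 ht
      · rw [append_io (c ∘ σ) (c' ∘ σ') (b ∘ s) (b' ∘ s') Sum.inl p hu hv, ← hx]
  rw [← h2]
  exact h1

/-- All smaller ranks. -/
theorem down_le {r n : ℕ} (hrn : r ≤ n) (h : Gab.{u} n) : Gab.{u} r := by
  obtain ⟨k, rfl⟩ := Nat.exists_eq_add_of_le hrn
  clear hrn
  induction k with
  | zero => exact h
  | succ k ih => exact ih (down h)

end Pool.Agent.Gab7c47
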